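import Pool.Agent.H610.HD.Stm

/-!
# The third vertex of a triangle is determined up to `O(δ)` (statement `S_tri` of helper610)
-/

set_option autoImplicit false

open MeasureTheory Set Filter

namespace Pool.Agent.H658.HD610

open Pool.Agent.H610.HD

theorem sq_norm_c (z : ℂ) : ‖z‖ ^ 2 = z.re ^ 2 + z.im ^ 2 := by
  rw [Complex.sq_norm, Complex.normSq_apply]; ring

theorem floor_near {δ a b : ℝ} (hδ : 0 < δ) (h : ⌊a / δ⌋ = ⌊b / δ⌋) : |a - b| ≤ δ := by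
  have h1 : |a / δ - b / δ| < 1 := Int.abs_sub_lt_one_of_floor_eq_floor h
  rw [← sub_div, abs_div, abs_of_pos hδ, div_lt_one hδ] at h1
  exact h1.le

theorem rd_near {δ : ℝ} (hδ : 0 < δ) {p p' : ℂ} (h : rd δ p = rd δ p') :
    ‖p - p'‖ ≤ 1415 / 1000 * δ := by
  have h1 := floor_near hδ (congrArg Prod.fst h)
  have h2 := floor_near hδ (congrArg Prod.snd h)
  have h3 := sq_norm_c (p - p')
  rw [Complex.sub_re, Complex.sub_im] at h3
  have h4 : (p.re - p'.re) ^ 2 ≤ δ ^ 2 := by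
    rw [← sq_abs]; exact pow_le_pow_left₀ (abs_nonneg _) h1 2
  have h5 : (p.im - p'.im) ^ 2 ≤ δ ^ 2 := by
    rw [← sq_abs]; exact pow_le_pow_left₀ (abs_nonneg _) h2 2
  have h6 : ‖p - p'‖ ^ 2 ≤ (1415 / 1000 * δ) ^ 2 := by nlinarith
  exact le_of_sq_le_sq h6 (by positivity)

/-- the square of the cross product -/
theorem cr_sq (p q z : ℂ) :
    cr p q z ^ 2 = ‖z - p‖ ^ 2 * ‖p - q‖ ^ 2 -
      ((‖z - p‖ ^ 2 - ‖z - q‖ ^ 2 + ‖p - q‖ ^ 2) / 2) ^ 2 := by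
  rw [sq_norm_c, sq_norm_c, sq_norm_c]
  simp only [cr, Complex.sub_re, Complex.sub_im]
  ring

theorem cr_ge {δ : ℝ} {m n : ℕ} {p q z : ℂ} (hδ : 0 < δ) (h : Tri δ m n p q z) :
    (8 / 5 : ℝ) ≤ |cr p q z| := by
  obtain ⟨h1, h2, h3, h4, h5, -, h7, -⟩ := h
  have hm : (0 : ℝ) ≤ m * δ := by positivity
  have hn : (0 : ℝ) ≤ n * δ := by positivity
  have hc := cr_sq p q z
  have a1 : (4 : ℝ) ≤ ‖z - p‖ ^ 2 := by nlinarith
  have a2 : ‖z - p‖ ^ 2 ≤ 40401 / 10000 := by nlinarith [norm_nonneg (z - p)]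
  have b1 : (4 : ℝ) ≤ ‖z - q‖ ^ 2 := by nlinarith
  have b2 : ‖z - q‖ ^ 2 ≤ 40401 / 10000 := by nlinarith [norm_nonneg (z - q)]
  have e1 : (4 : ℝ) ≤ ‖p - q‖ ^ 2 := by nlinarith
  have e2 : ‖p - q‖ ^ 2 ≤ 1521 / 100 := by nlinarith [norm_nonneg (p - q)]
  generalize ‖z - p‖ ^ 2 = A at *
  generalize ‖z - q‖ ^ 2 = B at *
  generalize ‖p - q‖ ^ 2 = E at *
  have k1 : ((A - B + E) / 2) ^ 2 ≤ ((401 / 10000 + E) / 2) ^ 2 :=
    pow_le_pow_left₀ (by linarith) (by linarith) 2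
  have k2 : 4 * E ≤ A * E := by nlinarith
  have k3 : 0 ≤ (E - 4) * (1521 / 100 - E) := mul_nonneg (by linarith) (by linarith)
  have k4 : (8 / 5 : ℝ) ^ 2 ≤ cr p q z ^ 2 := by rw [hc]; nlinarith
  rw [← sq_abs (cr p q z)] at k4
  exact le_of_sq_le_sq k4 (abs_nonneg _)

/-- the cross product moves by at most `12 δ` -/
theorem cr_move {δ : ℝ} (hδ : 0 < δ) (hδ1 : δ ≤ 1 / 100) {p q p' q' z : ℂ}
    (hp : ‖p - p'‖ ≤ 1415 / 1000 * δ) (hq : ‖q - q'‖ ≤ 1415 / 1000 * δ)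
    (h1 : ‖p' - q'‖ ≤ 39 / 10) (h2 : ‖z - p'‖ ≤ 201 / 100) :
    |cr p' q' z - cr p q z| ≤ 12 / 100 := by
  -- `cr a b = |im (conj b a)|`-type bound: `|x.re y.im - x.im y.re| ≤ ‖x‖ ‖y‖`
  have key : ∀ x y : ℂ, |x.re * y.im - x.im * y.re| ≤ ‖x‖ * ‖y‖ := by
    intro x y
    have hx := sq_norm_c x
    have hy := sq_norm_c y
    have : |x.re * y.im - x.im * y.re| ^ 2 ≤ (‖x‖ * ‖y‖) ^ 2 := by
      rw [sq_abs, mul_pow, hx, hy]
      nlinarith [sq_nonneg (x.re * y.re + x.im * y.im)]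
    exact le_of_sq_le_sq this (by positivity)
  have e1 : cr p' q' z - cr p q z =
      ((z - p').re * ((q - q') - (p - p')).im - (z - p').im * ((q - q') - (p - p')).re) * (-1) +
      ((p - p').re * (q' - p').im - (p - p').im * (q' - p').re) +
      ((p - p').re * (q - q').im - (p - p').im * (q - q').re) := by
    simp only [cr, Complex.sub_re, Complex.sub_im]
    ring
  have k1 := key (z - p') ((q - q') - (p - p'))
  have k2 := key (p - p') (q' - p')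
  have k3 := key (p - p') (q - q')
  have n1 : ‖(q - q') - (p - p')‖ ≤ 283 / 100 * δ := by
    have := norm_sub_le (q - q') (p - p')
    linarith
  have n2 : ‖q' - p'‖ ≤ 39 / 10 := by rw [norm_sub_rev]; exact h1
  have m1 : ‖z - p'‖ * ‖(q - q') - (p - p')‖ ≤ 201 / 100 * (283 / 100 * δ) :=
    mul_le_mul h2 n1 (norm_nonneg _) (by norm_num)
  have m2 : ‖p - p'‖ * ‖q' - p'‖ ≤ 1415 / 1000 * δ * (39 / 10) :=
    mul_le_mul hp n2 (norm_nonneg _) (by positivity)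
  have m3 : ‖p - p'‖ * ‖q - q'‖ ≤ 1415 / 1000 * δ * (1415 / 1000 * δ) :=
    mul_le_mul hp hq (norm_nonneg _) (by positivity)
  have m4 : 1415 / 1000 * δ * (1415 / 1000 * δ) ≤ 1415 / 1000 * δ * (1415 / 100000) := by
    apply mul_le_mul_of_nonneg_left _ (by positivity)
    linarith
  rw [e1]
  rw [abs_le] at k1 k2 k3 ⊢
  constructor <;> linarith [k1.1, k1.2, k2.1, k2.2, k3.1, k3.2]

theorem near_radius {δ : ℝ} {p p' z z' : ℂ} {m : ℕ}
    (hp : ‖p - p'‖ ≤ 1415 / 1000 * δ)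
    (h1 : 2 + m * δ ≤ ‖z - p‖) (h2 : ‖z - p‖ ≤ 2 + (m + 1) * δ)
    (h1' : 2 + m * δ ≤ ‖z' - p'‖) (h2' : ‖z' - p'‖ ≤ 2 + (m + 1) * δ) :
    |‖z - p‖ - ‖z' - p‖| ≤ 2415 / 1000 * δ := by
  have t1 : ‖z' - p‖ ≤ ‖z' - p'‖ + ‖p - p'‖ := by
    have e : z' - p = (z' - p') - (p - p') := by ring
    rw [e]; exact norm_sub_le _ _
  have t2 : ‖z' - p'‖ ≤ ‖z' - p‖ + ‖p - p'‖ := by
    have e : z' - p' = (z' - p) + (p - p') := by ring
    rw [e]; exact norm_add_le _ _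
  rw [abs_le]
  constructor <;> nlinarith

theorem near_sq {δ a b : ℝ} (hδ : 0 < δ) (hδ1 : δ ≤ 1 / 100) (ha : 0 ≤ a) (hb : 0 ≤ b)
    (ha' : a ≤ 201 / 100) (h : |a - b| ≤ 2415 / 1000 * δ) : |a ^ 2 - b ^ 2| ≤ 98 / 10 * δ := by
  have e : a ^ 2 - b ^ 2 = (a - b) * (a + b) := by ring
  rw [e, abs_mul, abs_of_nonneg (by linarith : 0 ≤ a + b)]
  have hb' : a + b ≤ 405 / 100 := by
    rw [abs_le] at h
    linarith [h.1]
  calc |a - b| * (a + b) ≤ (2415 / 1000 * δ) * (405 / 100) :=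
        mul_le_mul h hb' (by linarith) (by positivity)
    _ ≤ 98 / 10 * δ := by linarith

/-- the analytic part, in real numbers -/
theorem core {δ : ℝ} (hδ : 0 < δ) {x y ux uy A A' B B' E c c' : ℝ}
    (hE : E = ux ^ 2 + uy ^ 2) (hE1 : 4 ≤ E) (hE2 : E ≤ 1521 / 100)
    (hA : |A - A'| ≤ 98 / 10 * δ) (hB : |B - B'| ≤ 98 / 10 * δ)
    (hδ1 : δ ≤ 1 / 100)
    (hAB : |A - B| ≤ 401 / 10000)
    (hs : x * ux + y * uy = ((A - B + E) / 2) - ((A' - B' + E) / 2))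
    (ht : x * uy - y * ux = c - c')
    (hc : c ^ 2 = A * E - ((A - B + E) / 2) ^ 2)
    (hc' : c' ^ 2 = A' * E - ((A' - B' + E) / 2) ^ 2)
    (hcc : 3 ≤ |c + c'|) : |x| ≤ 60 * δ ∧ |y| ≤ 60 * δ := by
  set s := ((A - B + E) / 2) - ((A' - B' + E) / 2) with hsdef
  have hs1 : |s| ≤ 98 / 10 * δ := by
    have e : s = ((A - A') - (B - B')) / 2 := by rw [hsdef]; ring
    rw [e, abs_div, abs_two]
    have := abs_sub (A - A') (B - B')
    rw [div_le_iff₀ (by norm_num)]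
    linarith
  have hs2 : |(A - B + E) / 2 + (A' - B' + E) / 2| ≤ 1540 / 100 := by
    have e : (A - B + E) / 2 + (A' - B' + E) / 2 = (A - B + E) - s := by rw [hsdef]; ring
    rw [e]
    rw [abs_le] at hs1 hAB ⊢
    constructor <;> linarith [hs1.1, hs1.2, hAB.1, hAB.2]
  have ht1 : |c - c'| * |c + c'| ≤ 98 / 10 * δ * (1521 / 100) + 98 / 10 * δ * (1540 / 100) := by
    rw [← abs_mul]
    have e : (c - c') * (c + c') = (A - A') * E -
        s * ((A - B + E) / 2 + (A' - B' + E) / 2) := by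
      have : (c - c') * (c + c') = c ^ 2 - c' ^ 2 := by ring
      rw [this, hc, hc', hsdef]; ring
    rw [e]
    have := abs_sub ((A - A') * E) (s * ((A - B + E) / 2 + (A' - B' + E) / 2))
    refine this.trans (add_le_add ?_ ?_)
    · rw [abs_mul, abs_of_nonneg (by linarith : 0 ≤ E)]
      exact mul_le_mul hA hE2 (by linarith) (by positivity)
    · rw [abs_mul]
      exact mul_le_mul hs1 hs2 (abs_nonneg _) (by positivity)
  have ht2 : |c - c'| ≤ 101 * δ := by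
    have h0 : |c - c'| * 3 ≤ |c - c'| * |c + c'| :=
      mul_le_mul_of_nonneg_left hcc (abs_nonneg _)
    linarith
  have hL : E * (x ^ 2 + y ^ 2) = s ^ 2 + (c - c') ^ 2 := by
    rw [← hs, ← ht, hE]; ring
  have h1 : s ^ 2 ≤ (98 / 10 * δ) ^ 2 := by
    rw [← sq_abs]; exact pow_le_pow_left₀ (abs_nonneg _) hs1 2
  have h2 : (c - c') ^ 2 ≤ (101 * δ) ^ 2 := by
    rw [← sq_abs]; exact pow_le_pow_left₀ (abs_nonneg _) ht2 2
  have h3 : 4 * (x ^ 2 + y ^ 2) ≤ E * (x ^ 2 + y ^ 2) :=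
    mul_le_mul_of_nonneg_right hE1 (by positivity)
  have h4 : x ^ 2 + y ^ 2 ≤ (60 * δ) ^ 2 := by nlinarith [sq_nonneg δ]
  constructor
  · have : |x| ^ 2 ≤ (60 * δ) ^ 2 := by rw [sq_abs]; nlinarith [sq_nonneg y]
    exact le_of_sq_le_sq this (by positivity)
  · have : |y| ^ 2 ≤ (60 * δ) ^ 2 := by rw [sq_abs]; nlinarith [sq_nonneg x]
    exact le_of_sq_le_sq this (by positivity)

theorem floor_diff {δ a b : ℝ} (hδ : 0 < δ) (h : |a - b| ≤ 60 * δ) :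
    |⌊a / δ⌋ - ⌊b / δ⌋| ≤ 100 := by
  have h1 : |a / δ - b / δ| ≤ 60 := by
    rw [← sub_div, abs_div, abs_of_pos hδ, div_le_iff₀ hδ]; exact h
  rw [abs_le] at h1 ⊢
  have a1 := Int.floor_le (a / δ)
  have a2 := Int.lt_floor_add_one (a / δ)
  have b1 := Int.floor_le (b / δ)
  have b2 := Int.lt_floor_add_one (b / δ)
  constructor
  · have : (-100 : ℝ) ≤ ((⌊a / δ⌋ - ⌊b / δ⌋ : ℤ) : ℝ) := by
      push_cast; linarith [h1.1]
    exact_mod_cast this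
  · have : ((⌊a / δ⌋ - ⌊b / δ⌋ : ℤ) : ℝ) ≤ (100 : ℝ) := by
      push_cast; linarith [h1.2]
    exact_mod_cast this

theorem tri : S_tri := by
  intro δ hδ hδ1 m n p q z p' q' z' hp hq hT hT' hsgn
  have hp1 := rd_near hδ hp
  have hq1 := rd_near hδ hq
  have hcz := cr_ge hδ hT
  have hcz' := cr_ge hδ hT'
  obtain ⟨h1, h2, h3, h4, h5, h6, h7, h8⟩ := hT
  obtain ⟨h1', h2', h3', h4', h5', h6', h7', h8'⟩ := hT'
  have hmv := cr_move hδ hδ1 hp1 hq1 h2' h3'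
  have hra := near_radius hp1 h5 h6 h5' h6'
  have hrb := near_radius hq1 h7 h8 h7' h8'
  have hA := near_sq hδ hδ1 (norm_nonneg _) (norm_nonneg _) h3 hra
  have hB := near_sq hδ hδ1 (norm_nonneg _) (norm_nonneg _) h4 hrb
  have hm : (0 : ℝ) ≤ m * δ := by positivity
  have hn : (0 : ℝ) ≤ n * δ := by positivity
  have a1 : (4 : ℝ) ≤ ‖z - p‖ ^ 2 := by nlinarith
  have a2 : ‖z - p‖ ^ 2 ≤ 40401 / 10000 := by nlinarith [norm_nonneg (z - p)]
  have b1 : (4 : ℝ) ≤ ‖z - q‖ ^ 2 := by nlinarith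
  have b2 : ‖z - q‖ ^ 2 ≤ 40401 / 10000 := by nlinarith [norm_nonneg (z - q)]
  have e1 : (4 : ℝ) ≤ ‖p - q‖ ^ 2 := by nlinarith
  have e2 : ‖p - q‖ ^ 2 ≤ 1521 / 100 := by nlinarith [norm_nonneg (p - q)]
  have hAB : |‖z - p‖ ^ 2 - ‖z - q‖ ^ 2| ≤ 401 / 10000 := by
    rw [abs_le]; constructor <;> linarith
  have hcc : 3 ≤ |cr p q z + cr p q z'| := by
    rw [abs_le] at hmv
    by_cases h : 0 ≤ cr p q z
    · have h' := hsgn.1 h
      rw [abs_of_nonneg h] at hcz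
      rw [abs_of_nonneg h'] at hcz'
      rw [abs_of_nonneg (by linarith [hmv.2])]
      linarith [hmv.2]
    · have h' : ¬ 0 ≤ cr p' q' z' := fun h0 => h (hsgn.2 h0)
      push Not at h h'
      rw [abs_of_neg h] at hcz
      rw [abs_of_neg h'] at hcz'
      rw [abs_of_neg (by linarith [hmv.1])]
      linarith [hmv.1]
  have hc := cr_sq p q z
  have hc' := cr_sq p q z'
  have hE : ‖p - q‖ ^ 2 = (q - p).re ^ 2 + (q - p).im ^ 2 := by
    rw [norm_sub_rev]; exact sq_norm_c _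
  have hfin := core hδ (x := z.re - z'.re) (y := z.im - z'.im) hE e1 e2 hA hB hδ1 hAB
    (by
      rw [sq_norm_c (z - p), sq_norm_c (z - q), sq_norm_c (z' - p), sq_norm_c (z' - q), hE]
      simp only [Complex.sub_re, Complex.sub_im]
      ring)
    (c := cr p q z) (c' := cr p q z')
    (by
      simp only [cr, Complex.sub_re, Complex.sub_im]
      ring)
    hc hc' hcc
  exact ⟨floor_diff hδ hfin.1, floor_diff hδ hfin.2⟩

end Pool.Agent.H658.HD610
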